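import Pool.Agent.H40.JsRay

set_option autoImplicit false

namespace Pool.Agent.Results.MP_63c7e0_lc.UnionFails

open Set Filter OnePoint Topology
open Pool.Agent.H40.Bspt Pool.Agent.H40.Jz Pool.Agent.H40.Js Pool.Agent.H40.Js.Ray

variable {M : Type} (E : M → M → Prop)

/-- `φ` is a continuous map of the model from `S` to the discrete space `D` -/
def DCont (S T D : M) (φ : Ex E S → Ex E D) : Prop :=
  Intl E (fun x => (φ x).1) ∧ ∀ x, ∃ U, E U T ∧ E x.1 U ∧ ∀ y : Ex E S, E y.1 U → φ y = φ x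

/-- continuous maps from `S` to discrete spaces extend to `X` -/
def DEmb (S X T : M) : Prop :=
  ∀ D φ, DCont E S T D φ → ∃ ψ, DCont E X T D ψ ∧ ∀ (x : Ex E S) (h : E x.1 X), ψ ⟨x.1, h⟩ = φ x

theorem result : ∃ (M : Type) (E : M → M → Prop), IsZF E ∧ ∃ (Y T X : M) (S : Om E → M),
    IsTop E Y T ∧ Sub E X Y ∧ ZeroDim E X T ∧ T1 E X T ∧ Covers E S X ∧
      (∀ n, NCompact E (S n) T ∧ DEmb E (S n) X T) ∧ ¬ NCompact E X T := by
  obtain ⟨J⟩ := ex_js fx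
  refine ⟨J.M, J.E, J.zf, J.sA unA, J.T, J.sA X, _, J.isTop, J.subA_iff.2 (subset_univ _),
    J.zeroDim sb _, J.t1 sb _, covers J, fun n => ⟨J.nc_of_compact sb (K_closed _).isCompact, ?_⟩,
    J.not_nc sb bad⟩
  generalize J.omE.symm n = n
  rintro D φ ⟨⟨f, hf⟩, h1⟩
  let ρ : X.1 → (Ks n).1 := fun x => ⟨r n x, r_mem n x⟩
  obtain ⟨c, hc⟩ := J.intl_of (s := .a) (t := .a)
    (φ := fun z => (J.eA (Ks n) (ρ ((J.eA X).symm z))).1) X.1 (r n)
    (((fixK n).and X.2).mono fun g hg x hx =>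
      ⟨(hg.2 x).2 hx, (r_inv hg.1 x).trans (hg.1 _ (r_mem n x)).symm⟩)
    fun z => ⟨_, ((J.eA X).symm z).2, J.exE_symm (t := .a) _ z, rfl⟩
  refine ⟨fun z => φ (J.eA (Ks n) (ρ ((J.eA X).symm z))), ⟨J.zf.intl
    (R := fun x y => ∃ z, App J.E c x z ∧ App J.E f z y) (Df.ex' ((Df.app (Tm.const _) (Tm.var _)
      (Tm.var _)).and (Df.app (Tm.const _) (Tm.var _) (Tm.var _)))) _ D (·.2) (fun x => (φ _).2)
      fun x y _ => by simp only [hc, exists_eq_left, hf], fun x => ?_⟩, fun x h => ?_⟩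
  · obtain ⟨x, rfl⟩ := (J.eA X).surjective x
    refine (J.nhd' sb).2 ?_
    simp only [Equiv.symm_apply_apply]
    exact (((r_cont n).comp continuous_subtype_val).subtype_mk _).continuousAt.eventually
      ((J.nhd' sb).1 (h1 (J.eA _ (ρ x))))
  · obtain ⟨x, rfl⟩ := (J.eA _).surjective x
    refine congrArg (fun y => φ (J.eA _ y)) (Subtype.ext ?_)
    rw [show (⟨_, h⟩ : Ex J.E (J.sA X)) = J.eA X ⟨x, KX n x.2⟩ from rfl, Equiv.symm_apply_apply]
    exact r_eq x.2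

end Pool.Agent.Results.MP_63c7e0_lc.UnionFails
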